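import Pool.Agent.Lib.MP_b8b490_an.Main

open MeasureTheory Set Filter Topology Pool.Agent.Lib.MP_b8b490_an

namespace Pool.Agent.Results.MP_b8b490_an.LambdaThreeUpper

/-- The Grötzsch ring constant of `ℝ³` satisfies `λ₃ ≤ 9.39`. Here `ringMod 2 a` is the modulus of
the Grötzsch ring `G(3, a)`; the capacity in its definition is positive and finite. -/
theorem result :
    (∀ a : ℝ, 0 < a → a < 1 →
      0 < cap (ring (k := 2) a) (slit a) outer ∧ cap (ring (k := 2) a) (slit a) outer < ⊤) ∧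
    (∀ᶠ a in 𝓝[>] (0 : ℝ), ringMod 2 a + Real.log a ≤ Real.log (939 / 100)) ∧
    ∀ L : ℝ, 0 < L →
      Tendsto (fun a : ℝ => ringMod 2 a + Real.log a) (𝓝[>] 0) (𝓝 (Real.log L)) →
      L ≤ 939 / 100 := by
  refine ⟨fun a h0 h1 => cap_pos_lt_top h0 h1, eventually_le, fun L hL h => ?_⟩
  have h1 : Real.log L ≤ Real.log (939 / 100) := le_of_tendsto h eventually_le
  exact (Real.log_le_log_iff hL (by norm_num)).1 h1

end Pool.Agent.Results.MP_b8b490_an.LambdaThreeUpper
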